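import Pool.Agent.Run7.h104.Q2.Defs

/-!
# MP_5bfbcb_an, Q2 (project of helper104): piece LOC (helper688)
-/

set_option autoImplicit false

open MeasureTheory AddCircle Set Filter Topology Pool.Agent.W767.HL Pool.Agent.Run7.h104.Q2

namespace Pool.Agent.Run7.h688.Q2L

lemma norm_pt (y : ℝ) (θ : Ci) : ‖pt y θ‖ = Real.exp (-y) := by
  unfold pt
  rw [norm_mul, norm_ze, mul_one, Complex.norm_real, Real.norm_of_nonneg (Real.exp_pos _).le]

lemma pt_ne (y : ℝ) (θ : Ci) : pt y θ ≠ 0 := by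
  rw [← norm_pos_iff, norm_pt]
  exact Real.exp_pos _

lemma dep_pt (y : ℝ) (θ : Ci) : dep (pt y θ) = y := by
  unfold dep
  rw [norm_pt, Real.log_exp, neg_neg]

lemma cont_pt (y : ℝ) : Continuous (pt y) := by
  unfold pt
  exact continuous_const.mul continuous_ze

lemma dep_cont {z : ℂ} (hz : z ≠ 0) : ContinuousAt dep z := by
  unfold dep
  exact (continuousAt_id.norm.log (norm_ne_zero_iff.2 hz)).neg

lemma norm_of_dep {z : ℂ} (hz : z ≠ 0) {y : ℝ} (h : dep z = y) : ‖z‖ = Real.exp (-y) := by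
  unfold dep at h
  have : Real.log ‖z‖ = -y := by linarith
  rw [← this, Real.exp_log (norm_pos_iff.2 hz)]

/-- the closed annulus -/
lemma ann_eq (y1 y2 : ℝ) : {z : ℂ | z ≠ 0 ∧ y1 ≤ dep z ∧ dep z ≤ y2} =
    {z : ℂ | Real.exp (-y2) ≤ ‖z‖ ∧ ‖z‖ ≤ Real.exp (-y1)} := by
  ext z
  unfold dep
  simp only [mem_ofPred_eq]
  constructor
  · rintro ⟨h0, h1, h2⟩
    have hz : 0 < ‖z‖ := norm_pos_iff.2 h0
    constructor
    · rw [← Real.le_log_iff_exp_le hz]; linarith
    · rw [← Real.log_le_iff_le_exp hz]; linarith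
  · rintro ⟨h1, h2⟩
    have hz : 0 < ‖z‖ := lt_of_lt_of_le (Real.exp_pos _) h1
    rw [← Real.le_log_iff_exp_le hz] at h1
    rw [← Real.log_le_iff_le_exp hz] at h2
    exact ⟨norm_pos_iff.1 hz, by linarith, by linarith⟩

lemma ann_cpt (y1 y2 : ℝ) : IsCompact {z : ℂ | z ≠ 0 ∧ y1 ≤ dep z ∧ dep z ≤ y2} := by
  rw [ann_eq]
  have h1 : IsClosed {z : ℂ | Real.exp (-y2) ≤ ‖z‖ ∧ ‖z‖ ≤ Real.exp (-y1)} :=
    (isClosed_le continuous_const continuous_norm).inter (isClosed_le continuous_norm continuous_const)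
  refine Metric.isCompact_of_isClosed_isBounded h1 ?_
  refine (Metric.isBounded_closedBall (x := (0 : ℂ)) (r := Real.exp (-y1))).subset ?_
  intro z hz
  rw [mem_closedBall_zero_iff]
  exact hz.2

/-- the maximum principle on an annulus -/
lemma annulus (hIM : S_IM) {y1 y2 : ℝ} (h1 : 0 ≤ y1) {F H : ℂ → ℂ}
    (hF : ∀ z : ℂ, z ≠ 0 → AnalyticAt ℂ F z) (hH : Differentiable ℂ H) (p q : ℝ)
    (hb : ∀ z : ℂ, z ≠ 0 → (dep z = y1 ∨ dep z = y2) → F z ≠ 0 →
      Real.log ‖F z‖ + (H z).re + p * Real.log ‖z‖ + q ≤ 0) :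
    ∀ z : ℂ, z ≠ 0 → y1 ≤ dep z → dep z ≤ y2 → F z ≠ 0 →
      Real.log ‖F z‖ + (H z).re + p * Real.log ‖z‖ + q ≤ 0 := by
  intro z1 hz1 hd1 hd2 hF1
  apply le_of_forall_pos_le_add
  intro c hc
  rw [zero_add]
  -- the function
  obtain ⟨g, hg⟩ : ∃ g : ℂ → ℝ, g = fun z => (H z).re + p * Real.log ‖z‖ + q + c * ‖z‖ ^ 2 := ⟨_, rfl⟩
  obtain ⟨E, hE⟩ : ∃ E : ℂ → ℝ, E = fun z => ‖F z‖ * Real.exp (g z) := ⟨_, rfl⟩
  have hEe : ∀ z, F z ≠ 0 → E z = Real.exp (Real.log ‖F z‖ + g z) := by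
    intro z hz
    rw [hE, Real.exp_add, Real.exp_log (norm_pos_iff.2 hz)]
  have hcont : ContinuousOn E {z : ℂ | z ≠ 0 ∧ y1 ≤ dep z ∧ dep z ≤ y2} := by
    intro z hz
    apply ContinuousAt.continuousWithinAt
    rw [hE, hg]
    have a1 : ContinuousAt F z := (hF z hz.1).continuousAt
    have a2 := (Complex.continuous_re.comp hH.continuous).continuousAt (x := z)
    have a3 : ContinuousAt (fun z : ℂ => Real.log ‖z‖) z :=
      continuousAt_id.norm.log (norm_ne_zero_iff.2 hz.1)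
    apply a1.norm.mul
    apply Real.continuous_exp.continuousAt.comp
    exact ((a2.add (a3.const_mul p)).add continuousAt_const).add ((continuousAt_id.norm.pow 2).const_mul c)
  obtain ⟨z0, ⟨hz0, hl, hu⟩, hmax⟩ := (ann_cpt y1 y2).exists_isMaxOn ⟨z1, hz1, hd1, hd2⟩ hcont
  have hmax' : ∀ z, z ≠ 0 → y1 ≤ dep z → dep z ≤ y2 → E z ≤ E z0 := fun z a b c => hmax ⟨a, b, c⟩
  have hn : ‖z0‖ ≤ 1 := by
    have := norm_of_dep hz0 rfl
    rw [this]
    exact Real.exp_le_one_iff.2 (by linarith)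
  have hn2 : ‖z0‖ ^ 2 ≤ 1 := by nlinarith [norm_nonneg z0]
  have hE1 := hmax' z1 hz1 hd1 hd2
  rw [hEe z1 hF1] at hE1
  have hF0 : F z0 ≠ 0 := by
    intro h0
    have : E z0 = 0 := by
      rw [hE]
      show ‖F z0‖ * Real.exp (g z0) = 0
      rw [h0, norm_zero, zero_mul]
    rw [this] at hE1
    exact absurd hE1 (not_le.2 (Real.exp_pos _))
  rw [hEe z0 hF0] at hE1
  have hE2 := Real.exp_le_exp.1 hE1
  -- the case of the boundary
  have hfin : Real.log ‖F z0‖ + g z0 ≤ c → Real.log ‖F z1‖ + (H z1).re + p * Real.log ‖z1‖ + q ≤ c := by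
    intro h3
    have h4 : Real.log ‖F z1‖ + g z1 ≤ c := hE2.trans h3
    rw [hg] at h4
    have h5 : 0 ≤ c * ‖z1‖ ^ 2 := by positivity
    simp only at h4
    linarith
  by_cases hbd : dep z0 = y1 ∨ dep z0 = y2
  · apply hfin
    have h3 := hb z0 hz0 hbd hF0
    rw [hg]
    have h4 : c * ‖z0‖ ^ 2 ≤ c := by nlinarith
    simp only
    linarith
  · push Not at hbd
    exfalso
    have hl' : y1 < dep z0 := lt_of_le_of_ne hl (Ne.symm hbd.1)
    have hu' : dep z0 < y2 := lt_of_le_of_ne hu hbd.2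
    apply hIM F H 1 p c z0 hz0 (hF z0 hz0) hF0 hH hc
    have hev1 : ∀ᶠ z in 𝓝 z0, z ≠ 0 := isOpen_ne.mem_nhds hz0
    have hev2 : ∀ᶠ z in 𝓝 z0, F z ≠ 0 := (hF z0 hz0).continuousAt.eventually_ne hF0
    have hev3 : ∀ᶠ z in 𝓝 z0, y1 < dep z := (dep_cont hz0).eventually_const_lt hl'
    have hev4 : ∀ᶠ z in 𝓝 z0, dep z < y2 := (dep_cont hz0).eventually_lt_const hu'
    filter_upwards [hev1, hev2, hev3, hev4] with z g1 g2 g3 g4
    have h6 := hmax' z g1 g3.le g4.le
    rw [hEe z g2, hEe z0 hF0] at h6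
    have h7 := Real.exp_le_exp.1 h6
    rw [hg] at h7
    simp only at h7
    linarith

lemma Yc_nonneg {S D' : ℝ} {F h : ℂ → ℂ} {z : ℂ} (hD : 0 < D') (hz : ‖F z‖ ≤ Real.exp (S + (h z).re)) :
    0 ≤ Yc S D' F h z := by
  unfold Yc
  have h1 : max ‖F z‖ (Real.exp (S + (h z).re - D')) ≤ Real.exp (S + (h z).re) :=
    max_le hz (Real.exp_le_exp.2 (by linarith))
  have h2 : 0 < max ‖F z‖ (Real.exp (S + (h z).re - D')) := lt_max_of_lt_right (Real.exp_pos _)
  have h3 := (Real.log_le_iff_le_exp h2).2 h1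
  linarith

lemma Yc_le {S D' : ℝ} {F h : ℂ → ℂ} {z : ℂ} (hF : F z ≠ 0) :
    Yc S D' F h z ≤ S + (h z).re - Real.log ‖F z‖ := by
  unfold Yc
  have h1 : Real.log ‖F z‖ ≤ Real.log (max ‖F z‖ (Real.exp (S + (h z).re - D'))) :=
    Real.log_le_log (norm_pos_iff.2 hF) (le_max_left _ _)
  linarith

lemma Yc_cont {S D' : ℝ} {F h : ℂ → ℂ} (hF : ∀ z : ℂ, z ≠ 0 → AnalyticAt ℂ F z)
    (hh : Differentiable ℂ h) (y : ℝ) : Continuous fun θ : Ci => Yc S D' F h (pt y θ) := by
  have h1 : Continuous fun θ : Ci => F (pt y θ) := by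
    rw [continuous_iff_continuousAt]
    intro θ
    exact (hF _ (pt_ne y θ)).continuousAt.comp (f := pt y) (cont_pt y).continuousAt
  have h2 : Continuous fun θ : Ci => (h (pt y θ)).re :=
    Complex.continuous_re.comp (hh.continuous.comp (cont_pt y))
  unfold Yc
  refine (continuous_const.add h2).sub (Continuous.log ?_ ?_)
  · exact h1.norm.max (Real.continuous_exp.comp ((continuous_const.add h2).sub continuous_const))
  · intro θ
    exact (lt_max_of_lt_right (Real.exp_pos _)).ne'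

/-- the cutoff -/
noncomputable def chi (yb : ℝ) (tg : Ci) (θ : Ci) : ℝ := max 0 (min 1 (4 - 24 * ‖θ - tg‖ / yb))

lemma chi_cont (yb : ℝ) (tg : Ci) : Continuous (chi yb tg) := by
  unfold chi
  exact continuous_const.max (continuous_const.min (continuous_const.sub
    ((continuous_const.mul (continuous_id.sub continuous_const).norm).div_const _)))

lemma chi_nonneg (yb : ℝ) (tg θ : Ci) : 0 ≤ chi yb tg θ := le_max_left _ _

lemma chi_le (yb : ℝ) (tg θ : Ci) : chi yb tg θ ≤ 1 := max_le zero_le_one (min_le_left _ _)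

lemma chi_one {yb : ℝ} (hy : 0 < yb) {tg θ : Ci} (h : ‖θ - tg‖ ≤ yb / 8) : chi yb tg θ = 1 := by
  unfold chi
  have h1 : 24 * ‖θ - tg‖ / yb ≤ 3 := by
    rw [div_le_iff₀ hy]
    linarith
  rw [min_eq_left (by linarith), max_eq_right zero_le_one]

lemma chi_zero {yb : ℝ} (hy : 0 < yb) {tg θ : Ci} (h : yb / 6 ≤ ‖θ - tg‖) : chi yb tg θ = 0 := by
  unfold chi
  have h1 : 4 ≤ 24 * ‖θ - tg‖ / yb := by
    rw [le_div_iff₀ hy]
    linarith
  rw [max_eq_left]
  exact (min_le_right _ _).trans (by linarith)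

/-- upper bound for the Poisson kernel -/
lemma P_up {w : ℂ} {b : ℝ} (hb : 0 < b) (hb1 : b ≤ 3 / 16) (hw : ‖w‖ = Real.exp (-b)) (θ : Ci) :
    P w θ ≤ 2.04 / b := by
  have hw1 : ‖w‖ < 1 := by rw [hw]; exact Real.exp_lt_one_iff.2 (by linarith)
  have h := dist_pos w θ
  have h0 : 0 < 1 - ‖w‖ := by linarith
  have h1 : 0 < ‖ze θ - w‖ := by linarith
  have h2 : (1 - ‖w‖) ^ 2 ≤ ‖ze θ - w‖ ^ 2 := pow_le_pow_left₀ h0.le h 2
  have hn := norm_nonneg w
  have hP : P w θ ≤ (1 + ‖w‖) / (1 - ‖w‖) := by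
    unfold P
    rw [div_le_div_iff₀ (by positivity) h0]
    nlinarith
  refine hP.trans ?_
  rw [div_le_div_iff₀ h0 hb, hw]
  obtain ⟨u, hu⟩ : ∃ u : ℝ, u = Real.exp (-b) := ⟨_, rfl⟩
  rw [← hu]
  have hu0 : 0 < u := by rw [hu]; exact Real.exp_pos _
  have hub : u * Real.exp b = 1 := by rw [hu, ← Real.exp_add]; simp
  have hq := Real.quadratic_le_exp_of_nonneg hb.le
  -- `u * (2.04 + b) ≤ 2.04 - b`
  have h3 : (2.04 + b) ≤ (2.04 - b) * Real.exp b := by
    have h4 : (2.04 - b) * (1 + b + b ^ 2 / 2) ≤ (2.04 - b) * Real.exp b :=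
      mul_le_mul_of_nonneg_left hq (by linarith)
    refine le_trans ?_ h4
    have h5 : b ^ 2 ≤ 3 / 16 * b := by nlinarith
    nlinarith [mul_nonneg hb.le (sub_nonneg.2 hb1), mul_nonneg (mul_nonneg hb.le hb.le) (sub_nonneg.2 hb1)]
  have h6 := mul_le_mul_of_nonneg_left h3 hu0.le
  have h7 : u * ((2.04 - b) * Real.exp b) = 2.04 - b := by
    calc u * ((2.04 - b) * Real.exp b) = (2.04 - b) * (u * Real.exp b) := by ring
      _ = 2.04 - b := by rw [hub, mul_one]
  rw [h7] at h6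
  nlinarith

lemma ze_sub (θ tg : Ci) : ‖ze θ - ze tg‖ ≤ 2 * Real.pi * ‖θ - tg‖ := by
  have h1 : ze θ - ze tg = ze tg * (ze (θ - tg) - 1) := by
    have e : ze θ = ze tg * ze (θ - tg) := by
      have h2 : ze (tg + (θ - tg)) = ze tg * ze (θ - tg) := by
        unfold ze
        rw [fourier_one, fourier_one, fourier_one, AddCircle.toCircle_add, Circle.coe_mul]
      rw [add_sub_cancel] at h2
      exact h2
    rw [e]
    ring
  rw [h1, norm_mul, norm_ze, one_mul]
  obtain ⟨s, hs⟩ : ∃ s : ℝ, ((s : ℝ) : Ci) = θ - tg ∧ ‖(θ - tg : Ci)‖ = |s| := by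
    obtain ⟨x, hx⟩ := QuotientAddGroup.mk_surjective (θ - tg)
    refine ⟨x - round x, ?_, ?_⟩
    · rw [← hx]
      push_cast
      have h3 : (((round x : ℤ) : ℝ) : Ci) = 0 := by
        rw [AddCircle.coe_eq_zero_iff]
        exact ⟨round x, by simp⟩
      have h4 : ((x - ((round x : ℤ) : ℝ) : ℝ) : Ci) = (x : Ci) - (((round x : ℤ) : ℝ) : Ci) := by
        exact AddCircle.coe_sub _ _ _
      rw [h4, h3, sub_zero]
    · rw [← hx]
      exact UnitAddCircle.norm_eq
  rw [← hs.1, ze_coe]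
  have h5 : (2 * Real.pi * Complex.I * s : ℂ) = Complex.I * ((2 * Real.pi * s : ℝ) : ℂ) := by
    push_cast
    ring
  rw [h5]
  have h6 := Real.norm_exp_I_mul_ofReal_sub_one_le (x := 2 * Real.pi * s)
  refine h6.trans ?_
  rw [hs.1, hs.2, Real.norm_eq_abs, abs_mul, abs_of_pos (by positivity : (0 : ℝ) < 2 * Real.pi)]

lemma dist_id {u v : ℂ} (hu : ‖u‖ = 1) (hv : ‖v‖ = 1) (r : ℝ) :
    ‖u - (r : ℂ) * v‖ ^ 2 = (1 - r) ^ 2 + r * ‖u - v‖ ^ 2 := by
  have h1' : u.re ^ 2 + u.im ^ 2 = 1 := by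
    have := Complex.sq_norm u
    rw [hu, Complex.normSq_apply] at this
    nlinarith
  have h2' : v.re ^ 2 + v.im ^ 2 = 1 := by
    have := Complex.sq_norm v
    rw [hv, Complex.normSq_apply] at this
    nlinarith
  simp only [Complex.sq_norm, Complex.normSq_apply, Complex.sub_re, Complex.sub_im, Complex.mul_re,
    Complex.mul_im, Complex.ofReal_re, Complex.ofReal_im]
  linear_combination (1 - r) * h1' + (r ^ 2 - r) * h2'

/-- lower bound for the Poisson kernel -/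
lemma P_low {a yb : ℝ} (ha : 0 < a) (hay : a ≤ yb) (hyb : yb ≤ 1 / 16) {tg θ : Ci}
    (h : ‖θ - tg‖ < yb / 6) : 0.89 * (a / yb ^ 2) ≤ P (pt a tg) θ := by
  have hyb0 : 0 < yb := lt_of_lt_of_le ha hay
  obtain ⟨r, hr⟩ : ∃ r : ℝ, r = Real.exp (-a) := ⟨_, rfl⟩
  have hr1 : 1 - a ≤ r := by
    rw [hr]
    have := Real.add_one_le_exp (-a)
    linarith
  have hr0 : 0 < r := by rw [hr]; exact Real.exp_pos _
  have hr2 : r < 1 := by rw [hr]; exact Real.exp_lt_one_iff.2 (by linarith)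
  have hr3 : r ≤ 1 - a + a ^ 2 / 2 := by
    -- `exp (-a) ≤ 1 - a + a²/2`
    have h1 := Real.quadratic_le_exp_of_nonneg ha.le
    have h2 : r * Real.exp a = 1 := by rw [hr, ← Real.exp_add]; simp
    have h3 : 1 ≤ (1 - a + a ^ 2 / 2) * (1 + a + a ^ 2 / 2) := by nlinarith [sq_nonneg (a ^ 2)]
    have h4 : 0 < 1 - a + a ^ 2 / 2 := by nlinarith [sq_nonneg (a - 1)]
    have h5 : 1 ≤ (1 - a + a ^ 2 / 2) * Real.exp a :=
      h3.trans (mul_le_mul_of_nonneg_left h1 h4.le)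
    have h6 := mul_le_mul_of_nonneg_left h5 hr0.le
    have h7 : r * ((1 - a + a ^ 2 / 2) * Real.exp a) = 1 - a + a ^ 2 / 2 := by
      calc r * ((1 - a + a ^ 2 / 2) * Real.exp a) = (1 - a + a ^ 2 / 2) * (r * Real.exp a) := by ring
        _ = _ := by rw [h2, mul_one]
    rw [h7, mul_one] at h6
    exact h6
  unfold P
  rw [norm_pt, ← hr]
  have e1 : pt a tg = (r : ℂ) * ze tg := by rw [hr]; rfl
  rw [e1, dist_id (norm_ze θ) (norm_ze tg)]
  have hz := ze_sub θ tg
  have hpi := Real.pi_lt_d2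
  have hpi0 := Real.pi_pos
  have hz2 : ‖ze θ - ze tg‖ ≤ 1.05 * yb := by
    have h8 : 2 * Real.pi * ‖θ - tg‖ ≤ 2 * 3.15 * (yb / 6) :=
      mul_le_mul (by linarith) h.le (norm_nonneg _) (by norm_num)
    linarith
  have hz3 : ‖ze θ - ze tg‖ ^ 2 ≤ (1.05 * yb) ^ 2 := pow_le_pow_left₀ (norm_nonneg _) hz2 2
  have hden : (1 - r) ^ 2 + r * ‖ze θ - ze tg‖ ^ 2 ≤ 2.1025 * yb ^ 2 := by
    have h9 : (1 - r) ^ 2 ≤ a ^ 2 := pow_le_pow_left₀ (by linarith) (by linarith) 2
    have h10 : a ^ 2 ≤ yb ^ 2 := pow_le_pow_left₀ ha.le hay 2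
    have h11 : r * ‖ze θ - ze tg‖ ^ 2 ≤ 1 * (1.05 * yb) ^ 2 :=
      mul_le_mul hr2.le hz3 (by positivity) (by norm_num)
    nlinarith
  have hdpos : 0 < (1 - r) ^ 2 + r * ‖ze θ - ze tg‖ ^ 2 := by
    have h12 : 0 < (1 - r) ^ 2 := by
      have : 0 < 1 - r := by linarith
      positivity
    have : 0 ≤ r * ‖ze θ - ze tg‖ ^ 2 := by positivity
    linarith
  have hnum : 1.875 * a ≤ 1 - r ^ 2 := by
    -- `1 - r = ≥ a - a²/2`, `1 + r ≥ 2 - a`
    have h13 : a - a ^ 2 / 2 ≤ 1 - r := by linarith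
    have h14 : 2 - a ≤ 1 + r := by linarith
    have h15 : 0 ≤ a - a ^ 2 / 2 := by nlinarith
    have h16 : (a - a ^ 2 / 2) * (2 - a) ≤ (1 - r) * (1 + r) :=
      mul_le_mul h13 h14 (by linarith) (by linarith)
    have h17 : 1.875 * a ≤ (a - a ^ 2 / 2) * (2 - a) := by
      have h18 : a ≤ 1 / 16 := hay.trans hyb
      have : (a - a ^ 2 / 2) * (2 - a) = a * (2 - 2 * a + a ^ 2 / 2) := by ring
      rw [this]
      have h19 : 1.875 ≤ 2 - 2 * a + a ^ 2 / 2 := by nlinarith [sq_nonneg a]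
      have := mul_le_mul_of_nonneg_left h19 ha.le
      linarith
    nlinarith
  rw [mul_div_assoc', div_le_div_iff₀ (by positivity) hdpos]
  calc 0.89 * a * ((1 - r) ^ 2 + r * ‖ze θ - ze tg‖ ^ 2)
      ≤ 0.89 * a * (2.1025 * yb ^ 2) := mul_le_mul_of_nonneg_left hden (by positivity)
    _ = (1.871225 * a) * yb ^ 2 := by ring
    _ ≤ (1 - r ^ 2) * yb ^ 2 := by
        apply mul_le_mul_of_nonneg_right _ (by positivity)
        linarith

/-- **LOC** -/
theorem prove_LOC (hIM : S_IM) (hAPX : S_APX) : S_LOC := by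
  intro yb S D' F h d hD' y' yg tg hy1 hy2 hy3 hFg
  have hyb := d.hyb
  have hyb1 := d.hyb1
  obtain ⟨a, ha⟩ : ∃ a : ℝ, a = yg - y' := ⟨_, rfl⟩
  obtain ⟨b, hb⟩ : ∃ b : ℝ, b = 4 * yb - y' := ⟨_, rfl⟩
  have ha0 : 0 < a := by linarith
  have hay : a ≤ yb := by linarith
  have hb0 : 2 * yb ≤ b := by linarith
  have hb1 : b ≤ 3 / 16 := by linarith
  have hbpos : 0 < b := by linarith
  obtain ⟨φ, hφ⟩ : ∃ φ : Ci → ℝ, φ = fun θ => Yc S D' F h (pt y' θ) * chi yb (tg : Ci) θ := ⟨_, rfl⟩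
  have hYn : ∀ θ : Ci, 0 ≤ Yc S D' F h (pt y' θ) := by
    intro θ
    apply Yc_nonneg hD'
    apply d.pos _ (pt_ne y' θ)
    · rw [dep_pt]; exact hy1
    · rw [dep_pt]; linarith
  have hφc : Continuous φ := by
    rw [hφ]
    exact (Yc_cont d.hF d.hh y').mul (chi_cont yb _)
  have hφ0 : ∀ θ, 0 ≤ φ θ := by
    intro θ
    rw [hφ]
    exact mul_nonneg (hYn θ) (chi_nonneg _ _ _)
  have hφY : ∀ θ, φ θ ≤ Yc S D' F h (pt y' θ) := by
    intro θ
    rw [hφ]
    have := mul_le_mul_of_nonneg_left (chi_le yb (tg : Ci) θ) (hYn θ)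
    rw [mul_one] at this
    exact this
  obtain ⟨I, hI⟩ : ∃ I : ℝ, I = ∫ θ, φ θ ∂mu := ⟨_, rfl⟩
  have hI0 : 0 ≤ I := by rw [hI]; exact integral_nonneg hφ0
  obtain ⟨Yg, hYg⟩ : ∃ Yg : ℝ, Yg = S + (h (pt yg (tg : Ci))).re - Real.log ‖F (pt yg (tg : Ci))‖ := ⟨_, rfl⟩
  have hYg0 : 0 ≤ Yg := by
    have h1 := d.pos (pt yg (tg : Ci)) (pt_ne _ _) (by rw [dep_pt]; linarith) (by rw [dep_pt]; linarith)
    have h2 := (Real.log_le_iff_le_exp (norm_pos_iff.2 hFg)).2 h1
    linarith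
  -- the main bound
  have hmain : ∀ ε : ℝ, 0 < ε → 0.89 * (a / yb ^ 2) * I ≤ 0.51 * (a / yb ^ 2) * I + Yg + ε := by
    intro ε hε
    obtain ⟨H₀, hH₀, hH₀b⟩ := hAPX φ hφc ε hε
    obtain ⟨H, hH⟩ : ∃ H : ℂ → ℂ, H = fun z => H₀ ((Real.exp y' : ℂ) * z) := ⟨_, rfl⟩
    have hHd : Differentiable ℂ H := by
      rw [hH]
      exact hH₀.comp (differentiable_id.const_mul _)
    obtain ⟨m, hm⟩ : ∃ m : ℝ, m = 2.04 / b * I / b := ⟨_, rfl⟩
    have hnexp : ‖((Real.exp y' : ℝ) : ℂ)‖ = Real.exp y' := by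
      rw [Complex.norm_real, Real.norm_of_nonneg (Real.exp_pos _).le]
    -- boundary values
    have hb1' : ∀ z : ℂ, z ≠ 0 → dep z = y' → F z ≠ 0 →
        (H z).re ≤ S + (h z).re - Real.log ‖F z‖ := by
      intro z hz hdz hFz
      have hnz := norm_of_dep hz hdz
      obtain ⟨θ, hθ⟩ : ∃ θ : Ci, z = pt y' θ := by
        have h3 : ‖z / ‖z‖‖ = 1 := by
          rw [norm_div, Complex.norm_real, norm_norm, div_self (norm_ne_zero_iff.2 hz)]
        obtain ⟨x, hx⟩ := (Complex.norm_eq_one_iff _).1 h3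
        refine ⟨((x / (2 * Real.pi) : ℝ) : Ci), ?_⟩
        unfold pt
        rw [ze_coe]
        have h4 : (2 * Real.pi * Complex.I * ((x / (2 * Real.pi) : ℝ) : ℂ) : ℂ) = x * Complex.I := by
          push_cast
          have : (Real.pi : ℂ) ≠ 0 := by exact_mod_cast Real.pi_ne_zero
          field_simp
        rw [h4, hx, ← hnz]
        have : (‖z‖ : ℂ) ≠ 0 := by exact_mod_cast norm_ne_zero_iff.2 hz
        field_simp
      have h5 : (H z).re = (H₀ (ze θ)).re := by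
        rw [hH, hθ]
        show (H₀ ((Real.exp y' : ℂ) * pt y' θ)).re = _
        have h6 : (Real.exp y' : ℂ) * pt y' θ = ze θ := by
          unfold pt
          rw [← mul_assoc, ← Complex.ofReal_mul, ← Real.exp_add]
          simp
        rw [h6]
      rw [h5]
      refine (hH₀b θ).2.trans ((hφY θ).trans ?_)
      rw [← hθ]
      exact Yc_le hFz
    have hb2' : ∀ z : ℂ, z ≠ 0 → dep z = 4 * yb → (H z).re ≤ m * b := by
      intro z hz hdz
      have hnz := norm_of_dep hz hdz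
      obtain ⟨w, hw⟩ : ∃ w : ℂ, w = (Real.exp y' : ℂ) * z := ⟨_, rfl⟩
      have hnw : ‖w‖ = Real.exp (-b) := by
        rw [hw, norm_mul, hnexp, hnz, ← Real.exp_add, hb]
        congr 1
        ring
      have hw1 : ‖w‖ < 1 := by rw [hnw]; exact Real.exp_lt_one_iff.2 (by linarith)
      have h5 : (H z).re = (H₀ w).re := by rw [hH, hw]
      rw [h5, ← poisson_re hH₀ hw1]
      have hcH : Continuous fun θ : Ci => (H₀ (ze θ)).re :=
        Complex.continuous_re.comp (hH₀.continuous.comp continuous_ze)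
      calc ∫ θ, P w θ * (H₀ (ze θ)).re ∂mu ≤ ∫ θ, 2.04 / b * φ θ ∂mu := by
            apply integral_mono (integrable_of_cont ((continuous_P hw1).mul hcH))
              (integrable_of_cont (continuous_const.mul hφc))
            intro θ
            show P w θ * (H₀ (ze θ)).re ≤ 2.04 / b * φ θ
            calc P w θ * (H₀ (ze θ)).re ≤ P w θ * φ θ :=
                  mul_le_mul_of_nonneg_left (hH₀b θ).2 (P_pos hw1 θ).le
              _ ≤ 2.04 / b * φ θ := mul_le_mul_of_nonneg_right (P_up hbpos hb1 hnw θ) (hφ0 θ)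
        _ = 2.04 / b * I := by rw [integral_const_mul, hI]
        _ = m * b := by rw [hm]; field_simp
    -- maximum principle
    have hmp := annulus hIM (y1 := y') (y2 := 4 * yb) (by linarith) d.hF (hHd.sub d.hh) m (m * y' - S)
      (by
        intro z hz hbd hFz
        have e1 : Real.log ‖z‖ = -dep z := by unfold dep; ring
        show Real.log ‖F z‖ + (H z - h z).re + m * Real.log ‖z‖ + (m * y' - S) ≤ 0
        rw [e1, Complex.sub_re]
        rcases hbd with h7 | h7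
        · have h8 := hb1' z hz h7 hFz
          rw [h7]
          linarith
        · have h8 := hb2' z hz h7
          have h9 := d.pos z hz (by rw [h7]; linarith) h7.le
          have h10 := (Real.log_le_iff_le_exp (norm_pos_iff.2 hFz)).2 h9
          rw [h7]
          have h11 : m * b = m * (4 * yb) - m * y' := by rw [hb]; ring
          linarith)
      (pt yg (tg : Ci)) (pt_ne _ _) (by rw [dep_pt]; linarith) (by rw [dep_pt]; linarith) hFg
    have e1 : Real.log ‖pt yg (tg : Ci)‖ = -yg := by rw [norm_pt, Real.log_exp]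
    have hmp2 : (H (pt yg (tg : Ci))).re ≤ m * a + Yg := by
      have h12 : Real.log ‖F (pt yg (tg : Ci))‖ + (H (pt yg (tg : Ci)) - h (pt yg (tg : Ci))).re +
        m * Real.log ‖pt yg (tg : Ci)‖ + (m * y' - S) ≤ 0 := hmp
      rw [e1, Complex.sub_re] at h12
      have h13 : m * a = m * yg - m * y' := by rw [ha]; ring
      linarith
    -- value at the point
    have hpa : ‖pt a (tg : Ci)‖ < 1 := by rw [norm_pt]; exact Real.exp_lt_one_iff.2 (by linarith)
    have hval : (H (pt yg (tg : Ci))).re = (H₀ (pt a (tg : Ci))).re := by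
      rw [hH]
      show (H₀ ((Real.exp y' : ℂ) * pt yg (tg : Ci))).re = _
      have h6 : (Real.exp y' : ℂ) * pt yg (tg : Ci) = pt a (tg : Ci) := by
        unfold pt
        rw [← mul_assoc, ← Complex.ofReal_mul, ← Real.exp_add]
        have : y' + -yg = -a := by rw [ha]; ring
        rw [this]
      rw [h6]
    have hcH : Continuous fun θ : Ci => (H₀ (ze θ)).re :=
      Complex.continuous_re.comp (hH₀.continuous.comp continuous_ze)
    have hlow : 0.89 * (a / yb ^ 2) * I - ε ≤ (H₀ (pt a (tg : Ci))).re := by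
      rw [← poisson_re hH₀ hpa]
      have h14 : 0.89 * (a / yb ^ 2) * I - ε = ∫ θ, (0.89 * (a / yb ^ 2) * φ θ - P (pt a (tg : Ci)) θ * ε) ∂mu := by
        rw [integral_sub (f := fun θ => 0.89 * (a / yb ^ 2) * φ θ) (g := fun θ => P (pt a (tg : Ci)) θ * ε)
          (integrable_of_cont (continuous_const.mul hφc))
          (integrable_of_cont ((continuous_P hpa).mul continuous_const)), integral_const_mul, ← hI,
          integral_mul_const, integral_P hpa, one_mul]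
      rw [h14]
      apply integral_mono (integrable_of_cont ((continuous_const.mul hφc).sub
        ((continuous_P hpa).mul continuous_const))) (integrable_of_cont ((continuous_P hpa).mul hcH))
      intro θ
      show 0.89 * (a / yb ^ 2) * φ θ - P (pt a (tg : Ci)) θ * ε ≤ P (pt a (tg : Ci)) θ * (H₀ (ze θ)).re
      have h15 : 0.89 * (a / yb ^ 2) * φ θ ≤ P (pt a (tg : Ci)) θ * φ θ := by
        by_cases h16 : ‖θ - (tg : Ci)‖ < yb / 6
        · exact mul_le_mul_of_nonneg_right (P_low ha0 hay hyb1 h16) (hφ0 θ)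
        · push Not at h16
          have h17 : φ θ = 0 := by
            rw [hφ]
            show _ * chi yb (tg : Ci) θ = 0
            rw [chi_zero hyb h16, mul_zero]
          rw [h17, mul_zero, mul_zero]
      have h18 := mul_le_mul_of_nonneg_left (hH₀b θ).1 (P_pos hpa θ).le
      linarith
    rw [hval] at hmp2
    have hma : m * a ≤ 0.51 * (a / yb ^ 2) * I := by
      rw [hm]
      have h19 : 2.04 / b * I / b * a = 2.04 * a * I / b ^ 2 := by field_simp
      have h20 : 0.51 * (a / yb ^ 2) * I = 2.04 * a * I / (2 * yb) ^ 2 := by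
        field_simp
        ring
      rw [h19, h20]
      apply div_le_div_of_nonneg_left (by positivity) (by positivity)
      exact pow_le_pow_left₀ (by positivity) hb0 2
    linarith
  have hmain2 : 0.89 * (a / yb ^ 2) * I ≤ 0.51 * (a / yb ^ 2) * I + Yg :=
    le_of_forall_pos_le_add hmain
  have hIb : I ≤ 4 * (yb ^ 2 / a) * Yg := by
    have h1 : (a / yb ^ 2) * I ≤ 4 * Yg := by
      have h2 : 0 ≤ (a / yb ^ 2) * I := by positivity
      nlinarith
    have h2 : I = (yb ^ 2 / a) * ((a / yb ^ 2) * I) := by field_simp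
    rw [h2]
    have h3 := mul_le_mul_of_nonneg_left h1 (show 0 ≤ yb ^ 2 / a by positivity)
    linarith
  -- the interval integral
  have hint : ∫ t in (tg - yb / 8)..(tg + yb / 8), Yc S D' F h (pt y' (t : Ci)) ≤ I := by
    have hcφ : Continuous fun t : ℝ => φ (t : Ci) := hφc.comp (AddCircle.continuous_mk' 1)
    have h1 : ∫ t in (tg - yb / 8)..(tg + yb / 8), Yc S D' F h (pt y' (t : Ci)) =
        ∫ t in (tg - yb / 8)..(tg + yb / 8), φ (t : Ci) := by
      apply intervalIntegral.integral_congr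
      intro t ht
      rw [uIcc_of_le (by linarith), mem_Icc] at ht
      have h2 : ‖((t : Ci) - (tg : Ci))‖ ≤ yb / 8 := by
        have h3 : ((t : Ci) - (tg : Ci)) = ((t - tg : ℝ) : Ci) := (AddCircle.coe_sub _ _ _).symm
        rw [h3]
        have h4 : ‖((t - tg : ℝ) : Ci)‖ ≤ |t - tg| := by
          have h5 := round_le (t - tg) 0
          rw [Int.cast_zero, sub_zero] at h5
          exact (UnitAddCircle.norm_eq (x := t - tg)).le.trans h5
        refine h4.trans (abs_le.2 ⟨by linarith, by linarith⟩)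
      rw [hφ]
      show _ = Yc S D' F h (pt y' (t : Ci)) * chi yb (tg : Ci) (t : Ci)
      rw [chi_one hyb h2, mul_one]
    rw [h1, hI, integral_haarAddCircle, inv_one, one_smul,
      ← AddCircle.intervalIntegral_preimage 1 (tg - 1 / 2) φ]
    apply intervalIntegral.integral_mono_interval (by linarith) (by linarith) (by linarith)
    · exact Filter.Eventually.of_forall fun t => hφ0 _
    · exact hcφ.intervalIntegrable _ _
  have hfin : 4 * (yb ^ 2 / (yg - y')) * (S + (h (pt yg (tg : Ci))).re - Real.log ‖F (pt yg (tg : Ci))‖) =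
      4 * (yb ^ 2 / a) * Yg := by rw [ha, hYg]
  rw [hfin]
  exact hint.trans hIb

end Pool.Agent.Run7.h688.Q2L
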