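import Pool.Agent.Run7.h104.Q2.Defs

/-!
# MP_5bfbcb_an, Q2 (project of helper104): piece POT (helper688)
-/

set_option autoImplicit false

open MeasureTheory Set Filter Topology Pool.Agent.Run7.h104.Q2

namespace Pool.Agent.Run7.h688.Q2

/-- slopes -/
noncomputable def sl (D0 β : ℝ) (y : ℕ → ℝ) (j : ℕ) : ℝ :=
  8 * β * Real.exp (-(2 ^ j * D0 / 8)) / y (j + 1)

/-- the piecewise linear function -/
noncomputable def Aa (k N : ℕ) (D0 β U : ℝ) (y : ℕ → ℝ) (i : ℕ) (x : ℝ) : ℝ :=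
  U * (x / y k) + ∑ j ∈ Finset.Ico k N, sl D0 β y j * (y (j + 1) / 2) +
    ∑ j ∈ Finset.Ico k i, sl D0 β y j * (x - y (j + 1) / 2)

lemma Aa_succ (k N : ℕ) (D0 β U : ℝ) (y : ℕ → ℝ) (i : ℕ) (hi : k ≤ i) (x : ℝ) :
    Aa k N D0 β U y (i + 1) x = Aa k N D0 β U y i x + sl D0 β y i * (x - y (i + 1) / 2) := by
  unfold Aa
  rw [Finset.sum_Ico_succ_top hi]
  ring

lemma Aa_lin (k N : ℕ) (D0 β U : ℝ) (y : ℕ → ℝ) (i : ℕ) :
    ∃ p q : ℝ, ∀ x, Aa k N D0 β U y i x = p * x + q := by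
  refine ⟨U / y k + ∑ j ∈ Finset.Ico k i, sl D0 β y j,
    ∑ j ∈ Finset.Ico k N, sl D0 β y j * (y (j + 1) / 2) -
      ∑ j ∈ Finset.Ico k i, sl D0 β y j * (y (j + 1) / 2), fun x => ?_⟩
  unfold Aa
  have e : ∑ j ∈ Finset.Ico k i, sl D0 β y j * (x - y (j + 1) / 2) =
      (∑ j ∈ Finset.Ico k i, sl D0 β y j) * x - ∑ j ∈ Finset.Ico k i, sl D0 β y j * (y (j + 1) / 2) := by
    rw [Finset.sum_mul, ← Finset.sum_sub_distrib]
    apply Finset.sum_congr rfl
    intro j _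
    ring
  rw [e]
  ring

lemma sl_pos {D0 β : ℝ} {y : ℕ → ℝ} (hβ : 0 < β) (hy : ∀ i, 0 < y i) (j : ℕ) : 0 < sl D0 β y j := by
  unfold sl
  have := hy (j + 1)
  positivity

lemma sl_mul {D0 β : ℝ} {y : ℕ → ℝ} (hy : ∀ i, 0 < y i) (j : ℕ) :
    sl D0 β y j * y (j + 1) = 8 * β * Real.exp (-(2 ^ j * D0 / 8)) := by
  unfold sl
  have := (hy (j + 1)).ne'
  field_simp

lemma Aa_ge {k N : ℕ} {D0 β U : ℝ} {y : ℕ → ℝ} (hβ : 0 < β) (hy : ∀ i, 0 < y i) {i : ℕ} (hi : i ≤ N)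
    {x : ℝ} (hx : 0 ≤ x) : U * (x / y k) ≤ Aa k N D0 β U y i x := by
  unfold Aa
  have h1 : -∑ j ∈ Finset.Ico k i, sl D0 β y j * (y (j + 1) / 2) ≤
      ∑ j ∈ Finset.Ico k i, sl D0 β y j * (x - y (j + 1) / 2) := by
    rw [← Finset.sum_neg_distrib]
    apply Finset.sum_le_sum
    intro j _
    have := sl_pos (D0 := D0) hβ hy j
    nlinarith [mul_nonneg this.le hx]
  have h2 : ∑ j ∈ Finset.Ico k i, sl D0 β y j * (y (j + 1) / 2) ≤
      ∑ j ∈ Finset.Ico k N, sl D0 β y j * (y (j + 1) / 2) := by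
    apply Finset.sum_le_sum_of_subset_of_nonneg (Finset.Ico_subset_Ico_right hi)
    intro j _ _
    have := sl_pos (D0 := D0) hβ hy j
    have := hy (j + 1)
    positivity
  linarith

/-- the geometric sum -/
lemma del_le {k N : ℕ} {D0 β : ℝ} {y : ℕ → ℝ} (hβ : 0 < β) (hy : ∀ i, 0 < y i) (hD : 100 ≤ D0) :
    ∑ j ∈ Finset.Ico k N, sl D0 β y j * (y (j + 1) / 2) ≤ 8 * β * Real.exp (-(2 ^ k * D0 / 8)) := by
  have hexp : Real.exp (-(D0 / 8)) ≤ 1 / 2 := by
    have h1 : Real.exp (-(D0 / 8)) = (Real.exp (D0 / 8))⁻¹ := Real.exp_neg _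
    have h2 : (2 : ℝ) ≤ Real.exp (D0 / 8) := by
      have := Real.add_one_le_exp (D0 / 8)
      linarith
    rw [h1, inv_le_comm₀ (by positivity) (by norm_num)]
    linarith
  have hterm : ∀ j ∈ Finset.Ico k N, sl D0 β y j * (y (j + 1) / 2) ≤
      4 * β * Real.exp (-(2 ^ k * D0 / 8)) * (1 / 2) ^ (j - k) := by
    intro j hj
    rw [Finset.mem_Ico] at hj
    have e1 : sl D0 β y j * (y (j + 1) / 2) = 4 * β * Real.exp (-(2 ^ j * D0 / 8)) := by
      have := sl_mul (D0 := D0) (β := β) hy j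
      linarith
    rw [e1]
    have h3 : (2 : ℝ) ^ k + ((j - k : ℕ) : ℝ) ≤ 2 ^ j := by
      have h4 : 2 ^ k + (j - k) ≤ 2 ^ j := by
        have h5 : j = k + (j - k) := by omega
        have h6 : j - k + 1 ≤ 2 ^ (j - k) := Nat.lt_two_pow_self
        have h7 : 1 ≤ 2 ^ k := Nat.one_le_two_pow
        calc 2 ^ k + (j - k) ≤ 2 ^ k * (j - k + 1) := by nlinarith
          _ ≤ 2 ^ k * 2 ^ (j - k) := Nat.mul_le_mul_left _ h6
          _ = 2 ^ j := by rw [← pow_add, ← h5]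
      exact_mod_cast h4
    have h8 : Real.exp (-(2 ^ j * D0 / 8)) ≤ Real.exp (-(2 ^ k * D0 / 8)) * (1 / 2) ^ (j - k) := by
      calc Real.exp (-(2 ^ j * D0 / 8)) ≤ Real.exp (-(2 ^ k * D0 / 8) + ((j - k : ℕ) : ℝ) * (-(D0 / 8))) := by
            apply Real.exp_le_exp.2
            nlinarith
        _ = Real.exp (-(2 ^ k * D0 / 8)) * Real.exp (-(D0 / 8)) ^ (j - k) := by
            rw [Real.exp_add, Real.exp_nat_mul]
        _ ≤ Real.exp (-(2 ^ k * D0 / 8)) * (1 / 2) ^ (j - k) := by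
            apply mul_le_mul_of_nonneg_left _ (Real.exp_pos _).le
            exact pow_le_pow_left₀ (Real.exp_pos _).le hexp _
    calc 4 * β * Real.exp (-(2 ^ j * D0 / 8)) ≤
          4 * β * (Real.exp (-(2 ^ k * D0 / 8)) * (1 / 2) ^ (j - k)) :=
          mul_le_mul_of_nonneg_left h8 (by positivity)
      _ = _ := by ring
  have hgeo : ∑ j ∈ Finset.Ico k N, ((1 : ℝ) / 2) ^ (j - k) ≤ 2 := by
    rw [Finset.sum_Ico_eq_sum_range]
    have e : ∀ i ∈ Finset.range (N - k), ((1 : ℝ) / 2) ^ (k + i - k) = (1 / 2) ^ i := by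
      intro i _
      rw [Nat.add_sub_cancel_left]
    rw [Finset.sum_congr rfl e]
    have h := geom_sum_eq (show (1 : ℝ) / 2 ≠ 1 by norm_num) (N - k)
    rw [h]
    have h9 : 0 ≤ ((1 : ℝ) / 2) ^ (N - k) := by positivity
    have : (((1 : ℝ) / 2) ^ (N - k) - 1) / (1 / 2 - 1) = 2 * (1 - (1 / 2) ^ (N - k)) := by ring
    rw [this]
    linarith
  calc ∑ j ∈ Finset.Ico k N, sl D0 β y j * (y (j + 1) / 2)
      ≤ ∑ j ∈ Finset.Ico k N, 4 * β * Real.exp (-(2 ^ k * D0 / 8)) * (1 / 2) ^ (j - k) :=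
        Finset.sum_le_sum hterm
    _ = 4 * β * Real.exp (-(2 ^ k * D0 / 8)) * ∑ j ∈ Finset.Ico k N, ((1 : ℝ) / 2) ^ (j - k) := by
        rw [Finset.mul_sum]
    _ ≤ 4 * β * Real.exp (-(2 ^ k * D0 / 8)) * 2 :=
        mul_le_mul_of_nonneg_left hgeo (by positivity)
    _ = _ := by ring

lemma Aa_le {k N : ℕ} {D0 β U : ℝ} {y : ℕ → ℝ} (hβ : 0 < β) (hy : ∀ i, 0 < y i) (hanti : Antitone y)
    (hD : 100 ≤ D0) {i : ℕ} (hi : i ≤ N) {x : ℝ} (hx : x ≤ y i) :
    Aa k N D0 β U y i x ≤ U * (x / y k) + 16 * β * Real.exp (-(2 ^ k * D0 / 8)) := by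
  unfold Aa
  have h1 : ∑ j ∈ Finset.Ico k i, sl D0 β y j * (x - y (j + 1) / 2) ≤
      ∑ j ∈ Finset.Ico k i, sl D0 β y j * (y (j + 1) / 2) := by
    apply Finset.sum_le_sum
    intro j hj
    rw [Finset.mem_Ico] at hj
    have h2 := sl_pos (D0 := D0) hβ hy j
    have h3 : y i ≤ y (j + 1) := hanti (by omega)
    apply mul_le_mul_of_nonneg_left _ h2.le
    linarith
  have h2 : ∑ j ∈ Finset.Ico k i, sl D0 β y j * (y (j + 1) / 2) ≤
      ∑ j ∈ Finset.Ico k N, sl D0 β y j * (y (j + 1) / 2) := by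
    apply Finset.sum_le_sum_of_subset_of_nonneg (Finset.Ico_subset_Ico_right hi)
    intro j _ _
    have := sl_pos (D0 := D0) hβ hy j
    have := hy (j + 1)
    positivity
  have h3 := del_le (k := k) (N := N) hβ hy hD
  linarith

/-- comparison of two neighbouring functions -/
lemma cmp (T p q : ℝ) (hT : 100 ≤ T) (hP : Real.exp (-(T / 8)) < p) (hQ : p - 3 * Real.exp (-(T / 3)) ≤ q) :
    0 < q ∧ Real.log p - Real.exp (-(T / 8)) < Real.log q := by
  have hp0 : 0 < p := lt_trans (Real.exp_pos _) hP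
  obtain ⟨a, ha⟩ : ∃ a : ℝ, a = Real.exp (-(T / 8)) := ⟨_, rfl⟩
  have ha0 : 0 < a := by rw [ha]; exact Real.exp_pos _
  have ha1 : a ≤ 1 := by rw [ha]; exact Real.exp_le_one_iff.2 (by linarith)
  have hb : Real.exp (-(T / 12)) ≤ 1 / 9 := by
    rw [Real.exp_neg, inv_le_comm₀ (Real.exp_pos _) (by norm_num)]
    have := Real.add_one_le_exp (T / 12)
    linarith
  have hc : Real.exp (-(T / 3)) = a * (a * Real.exp (-(T / 12))) := by
    rw [ha, ← Real.exp_add, ← Real.exp_add]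
    congr 1
    ring
  rw [← ha] at hP ⊢
  -- `3 exp (-T/3) ≤ p * (a / 3)`
  have h1 : 3 * Real.exp (-(T / 3)) ≤ p * (a / 3) := by
    rw [hc]
    have h2 : a * Real.exp (-(T / 12)) ≤ a / 9 := by nlinarith
    nlinarith [mul_pos ha0 ha0]
  obtain ⟨x, hx⟩ : ∃ x : ℝ, x = a / 3 := ⟨_, rfl⟩
  have hx1 : x ≤ 1 / 3 := by linarith
  have hx0 : 0 < x := by linarith
  have h3 : p * (1 - x) ≤ q := by rw [hx]; linarith
  have h4 : 0 < p * (1 - x) := mul_pos hp0 (by linarith)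
  refine ⟨lt_of_lt_of_le h4 h3, ?_⟩
  have h5 : Real.log (p * (1 - x)) ≤ Real.log q := Real.log_le_log h4 h3
  rw [Real.log_mul hp0.ne' (by linarith)] at h5
  have h6 := Real.one_sub_inv_le_log_of_pos (show (0 : ℝ) < 1 - x by linarith)
  have h7 : (1 - x)⁻¹ ≤ 1 + 2 * x := by
    rw [inv_le_comm₀ (by linarith) (by linarith), inv_le_iff_one_le_mul₀ (by linarith)]
    nlinarith
  linarith

/-- lower end of the region -/
noncomputable def lo (N : ℕ) (y : ℕ → ℝ) (i : ℕ) : ℝ := if i < N then y (i + 1) / 4 else 0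

/-- the regions -/
def Rg (N : ℕ) (y : ℕ → ℝ) (i : ℕ) : Set ℂ := {z | z ≠ 0 ∧ lo N y i ≤ dep z ∧ dep z ≤ y i}

lemma Rg_eq (N : ℕ) (y : ℕ → ℝ) (i : ℕ) :
    Rg N y i = {z : ℂ | Real.exp (-(y i)) ≤ ‖z‖ ∧ ‖z‖ ≤ Real.exp (-(lo N y i))} := by
  ext z
  unfold Rg dep
  simp only [mem_ofPred_eq]
  constructor
  · rintro ⟨h0, h1, h2⟩
    have hz : 0 < ‖z‖ := norm_pos_iff.2 h0
    constructor
    · rw [← Real.le_log_iff_exp_le hz]; linarith
    · rw [← Real.log_le_iff_le_exp hz]; linarith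
  · rintro ⟨h1, h2⟩
    have hz : 0 < ‖z‖ := lt_of_lt_of_le (Real.exp_pos _) h1
    rw [← Real.le_log_iff_exp_le hz] at h1
    rw [← Real.log_le_iff_le_exp hz] at h2
    exact ⟨norm_pos_iff.1 hz, by linarith, by linarith⟩

lemma Rg_cpt (N : ℕ) (y : ℕ → ℝ) (i : ℕ) : IsCompact (Rg N y i) := by
  rw [Rg_eq]
  have h1 : IsClosed {z : ℂ | Real.exp (-(y i)) ≤ ‖z‖ ∧ ‖z‖ ≤ Real.exp (-(lo N y i))} :=
    (isClosed_le continuous_const continuous_norm).inter (isClosed_le continuous_norm continuous_const)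
  refine Metric.isCompact_of_isClosed_isBounded h1 ?_
  refine (Metric.isBounded_closedBall (x := (0 : ℂ)) (r := Real.exp (-(lo N y i)))).subset ?_
  intro z hz
  rw [mem_closedBall_zero_iff]
  exact hz.2

lemma Rg_ne (N : ℕ) (y : ℕ → ℝ) (hy : ∀ i, 0 < y i) (hanti : Antitone y) (i : ℕ) : (Rg N y i).Nonempty := by
  refine ⟨(Real.exp (-(y i)) : ℂ), ?_⟩
  rw [Rg_eq]
  have h1 : ‖(Real.exp (-(y i)) : ℂ)‖ = Real.exp (-(y i)) := by
    rw [Complex.norm_real, Real.norm_of_nonneg (Real.exp_pos _).le]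
  simp only [mem_ofPred_eq]
  rw [h1]
  refine ⟨le_rfl, Real.exp_le_exp.2 ?_⟩
  unfold lo
  split_ifs
  · have h2 : y (i + 1) ≤ y i := hanti (Nat.le_succ i)
    have := hy (i + 1)
    linarith
  · have := hy i
    linarith

/-- the exponent -/
noncomputable def gg (k N : ℕ) (D0 S β U c : ℝ) (y : ℕ → ℝ) (h r W : ℂ → ℂ) (i : ℕ) (z : ℂ) : ℝ :=
  (W z).re - β * S - β * (h z).re - (r z).re - Aa k N D0 β U y i (dep z) + c * ‖z‖ ^ 2

section
variable {k N : ℕ} {D0 S β U : ℝ} {y : ℕ → ℝ} {F : ℕ → ℂ → ℂ} {h r W : ℂ → ℂ}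

lemma dep_cont {z : ℂ} (hz : z ≠ 0) : ContinuousAt dep z := by
  unfold dep
  exact (continuousAt_id.norm.log (norm_ne_zero_iff.2 hz)).neg

/-- the function `E_i` -/
noncomputable def EE (F : ℕ → ℂ → ℂ) (k N : ℕ) (D0 S β U c : ℝ) (y : ℕ → ℝ) (h r W : ℂ → ℂ) (i : ℕ)
    (z : ℂ) : ℝ := ‖F i z‖ ^ β * Real.exp (gg k N D0 S β U c y h r W i z)

lemma EE_cont (d : PotData k N D0 S β U y F h r W) (c : ℝ) (i : ℕ) {z : ℂ} (hz : z ≠ 0) :
    ContinuousAt (EE F k N D0 S β U c y h r W i) z := by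
  have h1 : ContinuousAt (F i) z := (d.hF i z hz).continuousAt
  obtain ⟨p, q, hpq⟩ := Aa_lin k N D0 β U y i
  have h2 := dep_cont hz
  have hW := (Complex.continuous_re.comp d.hW.continuous).continuousAt (x := z)
  have hh := (Complex.continuous_re.comp d.hh.continuous).continuousAt (x := z)
  have hr := (Complex.continuous_re.comp d.hr.continuous).continuousAt (x := z)
  unfold EE gg
  simp only [hpq]
  apply ContinuousAt.mul
  · exact h1.norm.rpow_const (Or.inr d.hβ.le)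
  · apply Real.continuous_exp.continuousAt.comp
    exact ((((hW.sub continuousAt_const).sub (hh.const_mul β)).sub hr).sub
      ((h2.const_mul p).add continuousAt_const)).add ((continuousAt_id.norm.pow 2).const_mul c)

lemma EE_eq (c : ℝ) (i : ℕ) {z : ℂ} (hF : F i z ≠ 0) :
    EE F k N D0 S β U c y h r W i z =
      Real.exp (β * Real.log ‖F i z‖ + gg k N D0 S β U c y h r W i z) := by
  unfold EE
  rw [Real.rpow_def_of_pos (norm_pos_iff.2 hF), ← Real.exp_add]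
  congr 1
  ring

lemma dep_nonneg {z : ℂ} (h : ‖z‖ ≤ 1) : 0 ≤ dep z := by
  unfold dep
  have := Real.log_nonpos (norm_nonneg z) h
  linarith

lemma norm_of_dep {z : ℂ} (h : 0 ≤ dep z) : ‖z‖ ≤ 1 := by
  unfold dep at h
  by_contra hcon
  push Not at hcon
  have := Real.log_pos hcon
  linarith

lemma lo_nonneg (hy : ∀ i, 0 < y i) (i : ℕ) : 0 ≤ lo N y i := by
  unfold lo
  split_ifs
  · have := hy (i + 1)
    positivity
  · exact le_rfl

/-- the maximum principle -/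
lemma main (hIM : S_IM) (d : PotData k N D0 S β U y F h r W) (c : ℝ) (hc : 0 < c) :
    ∀ i, k ≤ i → i ≤ N → ∀ z ∈ Rg N y i, EE F k N D0 S β U c y h r W i z ≤ Real.exp c := by
  have hβ := d.hβ
  have hy := d.hy
  have hanti := d.hanti
  by_contra hcon
  push Not at hcon
  obtain ⟨i1, hki1, hi1N, z1, hz1, hE1⟩ := hcon
  -- maxima
  have hmax : ∀ i, ∃ z ∈ Rg N y i, ∀ z' ∈ Rg N y i,
      EE F k N D0 S β U c y h r W i z' ≤ EE F k N D0 S β U c y h r W i z := by
    intro i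
    have h1 : ContinuousOn (EE F k N D0 S β U c y h r W i) (Rg N y i) :=
      fun z hz => (EE_cont d c i hz.1).continuousWithinAt
    obtain ⟨z, hz, hz'⟩ := (Rg_cpt N y i).exists_isMaxOn (Rg_ne N y hy hanti i) h1
    exact ⟨z, hz, fun z' h' => hz' h'⟩
  choose zm hzm hzm' using hmax
  obtain ⟨i, hiI, hi'⟩ := Finset.exists_max_image (Finset.Icc k N)
    (fun i => EE F k N D0 S β U c y h r W i (zm i)) ⟨k, Finset.mem_Icc.2 ⟨le_rfl, d.hkN⟩⟩
  rw [Finset.mem_Icc] at hiI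
  obtain ⟨hki, hiN⟩ := hiI
  obtain ⟨z0, hz0⟩ : ∃ z0 : ℂ, z0 = zm i := ⟨_, rfl⟩
  have hz0R : z0 ∈ Rg N y i := by rw [hz0]; exact hzm i
  have htop : ∀ i', k ≤ i' → i' ≤ N → ∀ z' ∈ Rg N y i',
      EE F k N D0 S β U c y h r W i' z' ≤ EE F k N D0 S β U c y h r W i z0 := by
    intro i' h1 h2 z' hz'
    rw [hz0]
    exact (hzm' i' z' hz').trans (hi' i' (Finset.mem_Icc.2 ⟨h1, h2⟩))
  have hbig : Real.exp c < EE F k N D0 S β U c y h r W i z0 :=
    lt_of_lt_of_le hE1 (htop i1 hki1 hi1N z1 hz1)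
  clear hzm' hzm hi' hE1 hz1 hki1 hi1N
  obtain ⟨hzne, hlo, hup⟩ := hz0R
  have hdep0 : 0 ≤ dep z0 := le_trans (lo_nonneg hy i) hlo
  have hn1 := norm_of_dep hdep0
  have hzn : 0 < ‖z0‖ := norm_pos_iff.2 hzne
  have hFne : F i z0 ≠ 0 := by
    intro h0
    unfold EE at hbig
    rw [h0, norm_zero, Real.zero_rpow hβ.ne', zero_mul] at hbig
    exact absurd hbig (not_lt.2 (Real.exp_pos _).le)
  obtain ⟨Lf, hLf⟩ : ∃ Lf : ℝ, Lf = Real.log ‖F i z0‖ := ⟨_, rfl⟩
  obtain ⟨V, hV⟩ : ∃ V : ℝ, V = β * Lf + gg k N D0 S β U c y h r W i z0 := ⟨_, rfl⟩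
  have hEV : EE F k N D0 S β U c y h r W i z0 = Real.exp V := by
    rw [EE_eq c i hFne, hV, hLf]
  -- maximality for the logarithms
  have hlogmax : ∀ i', k ≤ i' → i' ≤ N → ∀ z' ∈ Rg N y i', F i' z' ≠ 0 →
      β * Real.log ‖F i' z'‖ + gg k N D0 S β U c y h r W i' z' ≤ V := by
    intro i' h1 h2 z' h3 h4
    have h5 := htop i' h1 h2 z' h3
    rw [EE_eq c i' h4, hEV] at h5
    exact Real.exp_le_exp.1 h5
  have hVc : c < V := by
    rw [hEV] at hbig
    exact Real.exp_lt_exp.1 hbig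
  clear htop hbig
  -- the main inequality
  have hn2 : ‖z0‖ ^ 2 ≤ 1 := by nlinarith [norm_nonneg z0]
  have hA := Aa_ge (k := k) (N := N) (D0 := D0) (U := U) hβ hy hiN hdep0
  have hpos : 0 ≤ S + (h z0).re - Lf := by
    have h1 := d.pos i hki hiN z0 hzne hn1 hup
    have h2 := (Real.log_le_iff_le_exp (norm_pos_iff.2 hFne)).2 h1
    rw [← hLf] at h2
    linarith
  have hr0 := d.hr0 z0 hn1
  have hUd : 0 ≤ U * (dep z0 / y k) := by
    have := hy k
    have := d.hU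
    positivity
  have hstar : β * (S + (h z0).re - Lf) + (r z0).re + Aa k N D0 β U y i (dep z0) < (W z0).re := by
    have h1 : V = β * Lf + gg k N D0 S β U c y h r W i z0 := hV
    unfold gg at h1
    have h2 : c * ‖z0‖ ^ 2 ≤ c := by nlinarith
    nlinarith
  have hβpos : 0 ≤ β * (S + (h z0).re - Lf) := mul_nonneg hβ.le hpos
  -- (B)
  have hr1 : (r z0).re < 1 := by
    by_contra hcon
    push Not at hcon
    have := d.W1 z0 hn1
    linarith
  -- (A)
  have hA1 : dep z0 < y k := by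
    by_contra hcon
    push Not at hcon
    have h1 := d.top z0 hzne hn1 hcon
    have h2 : U ≤ U * (dep z0 / y k) := by
      have h3 : 1 ≤ dep z0 / y k := by
        rw [le_div_iff₀ (hy k), one_mul]
        exact hcon
      have := d.hU
      nlinarith
    linarith
  have hAnn : 0 ≤ Aa k N D0 β U y i (dep z0) := hUd.trans hA
  have h2pow : ∀ j : ℕ, (100 : ℝ) ≤ 2 ^ j * D0 := by
    intro j
    have h1 : (1 : ℝ) ≤ 2 ^ j := one_le_pow₀ (by norm_num)
    have := d.hD0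
    nlinarith
  -- (E)
  have hE : dep z0 < y i := by
    rcases hup.lt_or_eq with h1 | h1
    · exact h1
    exfalso
    have hik : k < i := by
      rcases hki.lt_or_eq with h2 | h2
      · exact h2
      · rw [← h2] at h1
        linarith
    obtain ⟨j, hj⟩ : ∃ j, i = j + 1 := ⟨i - 1, by omega⟩
    subst hj
    have hkj : k ≤ j := by omega
    have hjN : j < N := by omega
    have hyj := hy (j + 1)
    have hdepq : y (j + 1) / 4 ≤ dep z0 := by rw [h1]; linarith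
    -- `bad` for `j`
    have hsmall : S + (h z0).re - Lf < 2 ^ j * D0 / 8 := by
      by_contra hcon
      push Not at hcon
      have h3 := d.bad j hkj hjN z0 hzne hn1 hdepq
      have h4 : β * (2 ^ j * D0 / 8) ≤ β * (S + (h z0).re - Lf) := mul_le_mul_of_nonneg_left hcon hβ.le
      linarith
    have hh0 := d.hh0 z0 hn1
    have hS := d.hS
    have hLfl : -(2 ^ j * D0 / 8) < Lf := by linarith
    have hP : Real.exp (-(2 ^ j * D0 / 8)) < ‖F (j + 1) z0‖ := by
      rw [← Real.lt_log_iff_exp_lt (norm_pos_iff.2 hFne), ← hLf]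
      exact hLfl
    have hmis := d.mis j hkj hjN z0 hzne hn1 hdepq h1.le hr1
    have hQ : ‖F (j + 1) z0‖ - 3 * Real.exp (-(2 ^ j * D0 / 3)) ≤ ‖F j z0‖ := by
      have h5 := norm_sub_norm_le (F (j + 1) z0) (F j z0)
      linarith
    obtain ⟨hq0, hq⟩ := cmp (2 ^ j * D0) _ _ (h2pow j) hP hQ
    have hFj : F j z0 ≠ 0 := norm_pos_iff.1 hq0
    have hRj : z0 ∈ Rg N y j := by
      refine ⟨hzne, ?_, ?_⟩
      · unfold lo
        rw [if_pos hjN]
        exact hdepq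
      · exact h1.le.trans (hanti (Nat.le_succ j))
    have h6 := hlogmax j hkj hjN.le z0 hRj hFj
    rw [hV, hLf] at h6
    unfold gg at h6
    rw [Aa_succ k N D0 β U y j hkj] at h6
    have h7 := sl_mul (D0 := D0) (β := β) hy j
    have h8 : sl D0 β y j * (dep z0 - y (j + 1) / 2) = 4 * β * Real.exp (-(2 ^ j * D0 / 8)) := by
      rw [h1]
      linarith
    rw [h8] at h6
    have h9 : β * (Real.log ‖F (j + 1) z0‖ - Real.exp (-(2 ^ j * D0 / 8))) < β * Real.log ‖F j z0‖ :=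
      mul_lt_mul_of_pos_left hq hβ
    have h10 : 0 < β * Real.exp (-(2 ^ j * D0 / 8)) := by positivity
    linarith
  -- (C), (F), (D)
  have hF : lo N y i < dep z0 := by
    rcases hlo.lt_or_eq with h1 | h1
    · exact h1
    exfalso
    by_cases hiN' : i < N
    · have hloi : lo N y i = y (i + 1) / 4 := by unfold lo; rw [if_pos hiN']
      rw [hloi] at h1
      have hyi := hy (i + 1)
      have hdepq : y (i + 1) / 4 ≤ dep z0 := h1.le
      have hsmall : S + (h z0).re - Lf < 2 ^ i * D0 / 8 := by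
        by_contra hcon
        push Not at hcon
        have h3 := d.bad i hki hiN' z0 hzne hn1 hdepq
        have h4 : β * (2 ^ i * D0 / 8) ≤ β * (S + (h z0).re - Lf) := mul_le_mul_of_nonneg_left hcon hβ.le
        linarith
      have hh0 := d.hh0 z0 hn1
      have hS := d.hS
      have hLfl : -(2 ^ i * D0 / 8) < Lf := by linarith
      have hP : Real.exp (-(2 ^ i * D0 / 8)) < ‖F i z0‖ := by
        rw [← Real.lt_log_iff_exp_lt (norm_pos_iff.2 hFne), ← hLf]
        exact hLfl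
      have hmis := d.mis i hki hiN' z0 hzne hn1 hdepq (by rw [← h1]; linarith) hr1
      have hQ : ‖F i z0‖ - 3 * Real.exp (-(2 ^ i * D0 / 3)) ≤ ‖F (i + 1) z0‖ := by
        have h5 := norm_sub_norm_le (F i z0) (F (i + 1) z0)
        rw [norm_sub_rev] at h5
        linarith
      obtain ⟨hq0, hq⟩ := cmp (2 ^ i * D0) _ _ (h2pow i) hP hQ
      have hFj : F (i + 1) z0 ≠ 0 := norm_pos_iff.1 hq0
      have hRj : z0 ∈ Rg N y (i + 1) := by
        refine ⟨hzne, ?_, ?_⟩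
        · unfold lo
          split_ifs
          · have h11 : y (i + 1 + 1) ≤ y (i + 1) := hanti (Nat.le_succ _)
            linarith
          · exact hdep0
        · rw [← h1]; linarith
      have h6 := hlogmax (i + 1) (by omega) (by omega) z0 hRj hFj
      rw [hV, hLf] at h6
      unfold gg at h6
      rw [Aa_succ k N D0 β U y i hki] at h6
      have h7 := sl_mul (D0 := D0) (β := β) hy i
      have h8 : sl D0 β y i * (dep z0 - y (i + 1) / 2) = -(2 * β * Real.exp (-(2 ^ i * D0 / 8))) := by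
        rw [← h1]
        linarith
      rw [h8] at h6
      have h9 : β * (Real.log ‖F i z0‖ - Real.exp (-(2 ^ i * D0 / 8))) < β * Real.log ‖F (i + 1) z0‖ :=
        mul_lt_mul_of_pos_left hq hβ
      have h10 : 0 < β * Real.exp (-(2 ^ i * D0 / 8)) := by positivity
      linarith
    · have hiN2 : i = N := by omega
      have hloi : lo N y i = 0 := by unfold lo; rw [if_neg hiN']
      rw [hloi] at h1
      have hz1 : ‖z0‖ = 1 := by
        unfold dep at h1
        have h2 : Real.log ‖z0‖ = 0 := by linarith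
        exact Real.eq_one_of_pos_of_log_eq_zero hzn h2
      subst hiN2
      have hW0 : 0 < (W z0).re := by linarith
      have h3 := d.bot z0 hz1 hW0 hFne
      rw [← hLf] at h3
      have h4 := d.W1 z0 hn1
      have hh0 := d.hh0 z0 hn1
      have hS := d.hS
      have h5 : β * (-Lf) ≤ β * (S + (h z0).re - Lf) := mul_le_mul_of_nonneg_left (by linarith) hβ.le
      linarith
  -- (G)
  obtain ⟨p, q, hpq⟩ := Aa_lin k N D0 β U y i
  have hHd : Differentiable ℂ (fun z => W z - β * h z - r z) :=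
    (d.hW.sub (d.hh.const_mul _)).sub d.hr
  apply hIM (F i) (fun z => W z - β * h z - r z) β p c z0 hzne (d.hF i z0 hzne) hFne hHd hc
  have hev1 : ∀ᶠ z in 𝓝 z0, z ≠ 0 := isOpen_ne.mem_nhds hzne
  have hev2 : ∀ᶠ z in 𝓝 z0, F i z ≠ 0 := (d.hF i z0 hzne).continuousAt.eventually_ne hFne
  have hev3 : ∀ᶠ z in 𝓝 z0, lo N y i < dep z := (dep_cont hzne).eventually_const_lt hF
  have hev4 : ∀ᶠ z in 𝓝 z0, dep z < y i := (dep_cont hzne).eventually_lt_const hE
  filter_upwards [hev1, hev2, hev3, hev4] with z g1 g2 g3 g4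
  have h6 := hlogmax i hki hiN z ⟨g1, g3.le, g4.le⟩ g2
  rw [hV, hLf] at h6
  unfold gg at h6
  rw [hpq, hpq] at h6
  unfold dep at h6
  have e1 : ∀ z : ℂ, (W z - β * h z - r z).re = (W z).re - β * (h z).re - (r z).re := by
    intro z
    simp
  rw [e1, e1]
  linarith

end

/-- **POT** -/
theorem prove_POT (hIM : S_IM) : S_POT := by
  intro k N D0 S β U y F h r W d i hki hiN z hz hz1 hup hlo hF
  have hdep := dep_nonneg hz1
  have hR : z ∈ Rg N y i := by
    refine ⟨hz, ?_, hup⟩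
    unfold lo
    split_ifs with h1
    · exact hlo h1
    · exact hdep
  have hA := Aa_le (k := k) (N := N) (U := U) d.hβ d.hy d.hanti d.hD0 hiN hup
  have key : ∀ c : ℝ, 0 < c → (W z).re ≤ β * (S + (h z).re - Real.log ‖F i z‖) + (r z).re +
      Aa k N D0 β U y i (dep z) + c := by
    intro c hc
    have h1 := main hIM d c hc i hki hiN z hR
    rw [EE_eq c i hF] at h1
    have h2 := Real.exp_le_exp.1 h1
    unfold gg at h2
    have h3 : 0 ≤ c * ‖z‖ ^ 2 := by positivity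
    linarith
  have hlim : (W z).re ≤ β * (S + (h z).re - Real.log ‖F i z‖) + (r z).re +
      Aa k N D0 β U y i (dep z) := le_of_forall_pos_le_add key
  have hβe : 0 < β * Real.exp (-(2 ^ k * D0 / 8)) := mul_pos d.hβ (Real.exp_pos _)
  linarith

end Pool.Agent.Run7.h688.Q2
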